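import Pool.Agent.Lib.MP_144d21_co.XU.Iface

set_option autoImplicit false

namespace Pool.Agent.Xu.H57

open Finset Polynomial Pool.Agent.Xu

/-- two injective colourings of `K` differ by a permutation of the colours -/
theorem exists_perm {V : Type} [DecidableEq V] (q : ℕ) (g g' : V → ℕ) (K : Finset V) :
    (∀ v ∈ K, g v < q) → (∀ v ∈ K, g' v < q) → (∀ u ∈ K, ∀ v ∈ K, u ≠ v → g u ≠ g v) →
    (∀ u ∈ K, ∀ v ∈ K, u ≠ v → g' u ≠ g' v) →
    ∃ π : Equiv.Perm ℕ, (∀ i, π i < q ↔ i < q) ∧ ∀ v ∈ K, π (g v) = g' v := by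
  induction K using Finset.induction_on with
  | empty =>
    intro _ _ _ _
    exact ⟨1, fun i => Iff.rfl, fun v hv => absurd hv (notMem_empty v)⟩
  | insert v K hv ih =>
    intro h1 h2 h3 h4
    obtain ⟨π, hπ1, hπ2⟩ := ih (fun u hu => h1 u (mem_insert_of_mem hu))
      (fun u hu => h2 u (mem_insert_of_mem hu))
      (fun u hu w hw => h3 u (mem_insert_of_mem hu) w (mem_insert_of_mem hw))
      (fun u hu w hw => h4 u (mem_insert_of_mem hu) w (mem_insert_of_mem hw))
    have hv1 : π (g v) < q := (hπ1 _).2 (h1 v (mem_insert_self v K))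
    have hv2 : g' v < q := h2 v (mem_insert_self v K)
    refine ⟨π.trans (Equiv.swap (π (g v)) (g' v)), fun i => ?_, fun u hu => ?_⟩
    · rw [Equiv.trans_apply, ← hπ1 i]
      by_cases hi1 : π i = π (g v)
      · rw [hi1, Equiv.swap_apply_left]
        exact ⟨fun _ => hv1, fun _ => hv2⟩
      by_cases hi2 : π i = g' v
      · rw [hi2, Equiv.swap_apply_right]
        exact ⟨fun _ => hv2, fun _ => hv1⟩
      rw [Equiv.swap_apply_of_ne_of_ne hi1 hi2]
    · rw [Equiv.trans_apply]
      rcases mem_insert.1 hu with rfl | hu'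
      · rw [Equiv.swap_apply_left]
      · have huv : u ≠ v := fun h => hv (h ▸ hu')
        rw [Equiv.swap_apply_of_ne_of_ne, hπ2 u hu']
        · intro h
          exact h3 u hu v (mem_insert_self v K) huv (π.injective h)
        · rw [hπ2 u hu']
          exact h4 u hu v (mem_insert_self v K) huv

variable {V : Type} [Fintype V] [DecidableEq V]

/-- colourings of `T` which agree with `g` on `K` -/
noncomputable def fib (G : SimpleGraph V) (T K : Finset V) (q : ℕ) (g : V → ℕ) :
    Finset (V → ℕ) := by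
  classical
  exact (cols G T q).filter fun c => ∀ v ∈ K, c v = g v

theorem mem_fib {G : SimpleGraph V} {T K : Finset V} {q : ℕ} {g c : V → ℕ} :
    c ∈ fib G T K q g ↔ c ∈ cols G T q ∧ ∀ v ∈ K, c v = g v := by
  classical
  unfold fib
  rw [mem_filter]

theorem fib_le {G : SimpleGraph V} {T K : Finset V} {q : ℕ} {g g' : V → ℕ} (hKT : K ⊆ T)
    (hK : ∀ x ∈ K, ∀ y ∈ K, x ≠ y → G.Adj x y) (hg : g ∈ cols G K q) (hg' : g' ∈ cols G K q) :
    (fib G T K q g).card ≤ (fib G T K q g').card := by
  classical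
  rw [mem_cols] at hg hg'
  obtain ⟨π, hπ1, hπ2⟩ := exists_perm q g g' K hg.1 hg'.1
    (fun u hu v hv huv => hg.2.2 u hu v hv (hK u hu v hv huv))
    (fun u hu v hv huv => hg'.2.2 u hu v hv (hK u hu v hv huv))
  refine card_le_card_of_injOn (fun c v => if v ∈ T then π (c v) else 0) ?_ ?_
  · intro c hc
    rw [mem_coe, mem_fib, mem_cols] at hc
    obtain ⟨⟨h1, h2, h3⟩, h4⟩ := hc
    rw [mem_coe, mem_fib, mem_cols]
    refine ⟨⟨fun v hv => ?_, fun v hv => if_neg hv, fun a ha b hb hab => ?_⟩, fun v hv => ?_⟩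
    · simp only [if_pos hv]
      exact (hπ1 _).2 (h1 v hv)
    · simp only [if_pos ha, if_pos hb]
      exact fun h => h3 a ha b hb hab (π.injective h)
    · simp only [if_pos (hKT hv)]
      rw [h4 v hv, hπ2 v hv]
  · intro c hc c' hc' h
    rw [mem_coe, mem_fib, mem_cols] at hc hc'
    funext v
    have hv := congrFun h v
    by_cases hvT : v ∈ T
    · simp only [if_pos hvT] at hv
      exact π.injective hv
    · rw [hc.1.2.1 v hvT, hc'.1.2.1 v hvT]

theorem restr_mem {G : SimpleGraph V} {T K : Finset V} {q : ℕ} {c : V → ℕ} (hKT : K ⊆ T)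
    (hc : c ∈ cols G T q) : (fun v => if v ∈ K then c v else 0) ∈ cols G K q := by
  classical
  rw [mem_cols] at hc ⊢
  obtain ⟨h1, h2, h3⟩ := hc
  refine ⟨fun v hv => ?_, fun v hv => if_neg hv, fun a ha b hb hab => ?_⟩
  · simp only [if_pos hv]
    exact h1 v (hKT hv)
  · simp only [if_pos ha, if_pos hb]
    exact h3 a (hKT ha) b (hKT hb) hab

theorem card_cols_sum {G : SimpleGraph V} {T K : Finset V} {q : ℕ} (hKT : K ⊆ T) :
    (cols G T q).card = ∑ g ∈ cols G K q, (fib G T K q g).card := by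
  classical
  rw [card_eq_sum_card_fiberwise (f := fun c v => if v ∈ K then c v else 0)
    (t := cols G K q) (fun c hc => restr_mem hKT (mem_coe.1 hc))]
  refine sum_congr rfl fun g hg => ?_
  congr 1
  ext c
  rw [mem_filter, mem_fib]
  refine and_congr_right fun _ => ?_
  rw [mem_cols] at hg
  constructor
  · intro h v hv
    have := congrFun h v
    simp only [if_pos hv] at this
    exact this
  · intro h
    funext v
    by_cases hv : v ∈ K
    · simp only [if_pos hv]
      exact h v hv
    · simp only [if_neg hv]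
      exact (hg.2.1 v hv).symm

theorem fib_union {G : SimpleGraph V} {S1 S2 : Finset V} (hS : Sep G S1 S2) {q : ℕ}
    {g : V → ℕ} : (fib G (S1 ∪ S2) (S1 ∩ S2) q g).card =
    (fib G S1 (S1 ∩ S2) q g).card * (fib G S2 (S1 ∩ S2) q g).card := by
  classical
  rw [← card_product]
  refine card_nbij' (fun c => (fun v => if v ∈ S1 then c v else 0,
    fun v => if v ∈ S2 then c v else 0))
    (fun d v => if v ∈ S1 then d.1 v else d.2 v) ?_ ?_ ?_ ?_
  · intro c hc
    rw [mem_coe, mem_fib] at hc
    rw [mem_coe, mem_product, mem_fib, mem_fib]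
    refine ⟨⟨restr_mem subset_union_left hc.1, fun v hv => ?_⟩,
      restr_mem subset_union_right hc.1, fun v hv => ?_⟩
    · simp only [if_pos (mem_inter.1 hv).1]
      exact hc.2 v hv
    · simp only [if_pos (mem_inter.1 hv).2]
      exact hc.2 v hv
  · rintro ⟨d1, d2⟩ hd
    rw [mem_coe, mem_product, mem_fib, mem_fib, mem_cols, mem_cols] at hd
    obtain ⟨⟨⟨h1, h2, h3⟩, h4⟩, ⟨k1, k2, k3⟩, k4⟩ := hd
    rw [mem_coe, mem_fib, mem_cols]
    dsimp only at h1 h2 h3 h4 k1 k2 k3 k4 ⊢
    have hag : ∀ v ∈ S2, (if v ∈ S1 then d1 v else d2 v) = d2 v := by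
      intro v hv
      by_cases hv1 : v ∈ S1
      · rw [if_pos hv1, h4 v (mem_inter.2 ⟨hv1, hv⟩), k4 v (mem_inter.2 ⟨hv1, hv⟩)]
      · rw [if_neg hv1]
    refine ⟨⟨fun v hv => ?_, fun v hv => ?_, fun a ha b hb hab => ?_⟩, fun v hv => ?_⟩
    · rcases mem_union.1 hv with hv | hv
      · rw [if_pos hv]
        exact h1 v hv
      · rw [hag v hv]
        exact k1 v hv
    · rw [mem_union, not_or] at hv
      rw [if_neg hv.1]
      exact k2 v hv.2
    · rw [mem_union] at ha hb
      by_cases ha1 : a ∈ S1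
      · by_cases hb1 : b ∈ S1
        · rw [if_pos ha1, if_pos hb1]
          exact h3 a ha1 b hb1 hab
        · have hb2 := hb.resolve_left hb1
          have ha2 : a ∈ S2 := by
            by_contra ha2
            exact hS a ha1 ha2 b hb2 hb1 hab
          rw [hag a ha2, hag b hb2]
          exact k3 a ha2 b hb2 hab
      · have ha2 := ha.resolve_left ha1
        have hb2 : b ∈ S2 := by
          by_contra hb2
          exact hS b (hb.resolve_right hb2) hb2 a ha2 ha1 hab.symm
        rw [hag a ha2, hag b hb2]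
        exact k3 a ha2 b hb2 hab
    · rw [if_pos (mem_inter.1 hv).1]
      exact h4 v hv
  · intro c hc
    rw [mem_coe, mem_fib, mem_cols] at hc
    funext v
    dsimp only
    by_cases hv1 : v ∈ S1
    · rw [if_pos hv1, if_pos hv1]
    · by_cases hv2 : v ∈ S2
      · rw [if_neg hv1, if_pos hv2]
      · rw [if_neg hv1, if_neg hv2]
        refine (hc.1.2.1 v fun h => ?_).symm
        rcases mem_union.1 h with h | h
        · exact hv1 h
        · exact hv2 h
  · rintro ⟨d1, d2⟩ hd
    rw [mem_coe, mem_product, mem_fib, mem_fib, mem_cols, mem_cols] at hd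
    obtain ⟨⟨⟨h1, h2, h3⟩, h4⟩, ⟨k1, k2, k3⟩, k4⟩ := hd
    dsimp only at h1 h2 h3 h4 k1 k2 k3 k4 ⊢
    refine Prod.ext ?_ ?_
    · funext v
      dsimp only
      by_cases hv1 : v ∈ S1
      · rw [if_pos hv1, if_pos hv1]
      · rw [if_neg hv1]
        exact (h2 v hv1).symm
    · funext v
      dsimp only
      by_cases hv2 : v ∈ S2
      · rw [if_pos hv2]
        by_cases hv1 : v ∈ S1
        · rw [if_pos hv1, h4 v (mem_inter.2 ⟨hv1, hv2⟩), k4 v (mem_inter.2 ⟨hv1, hv2⟩)]
        · rw [if_neg hv1]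
      · rw [if_neg hv2]
        exact (k2 v hv2).symm

/-- colourings of a clique -/
theorem card_clique {G : SimpleGraph V} {K : Finset V} {q : ℕ}
    (hK : ∀ x ∈ K, ∀ y ∈ K, x ≠ y → G.Adj x y) :
    (cols G K q).card = q.descFactorial K.card := by
  classical
  have h1 : cols G K q = (univ : Finset (K ↪ Fin q)).image
      (fun e v => if h : v ∈ K then ((e ⟨v, h⟩ : Fin q) : ℕ) else 0) := by
    ext c
    rw [mem_cols, mem_image]
    constructor
    · rintro ⟨h1, h2, h3⟩
      refine ⟨⟨fun v => ⟨c v, h1 v v.2⟩, fun a b hab => ?_⟩, mem_univ _, ?_⟩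
      · by_contra hne
        exact h3 a a.2 b b.2 (hK a a.2 b b.2 fun h => hne (Subtype.ext h))
          (congrArg Fin.val hab)
      · funext v
        by_cases hv : v ∈ K
        · rw [dif_pos hv]
          rfl
        · rw [dif_neg hv]
          exact (h2 v hv).symm
    · rintro ⟨e, -, rfl⟩
      refine ⟨fun v hv => ?_, fun v hv => ?_, fun a ha b hb hab => ?_⟩
      · simp only [dif_pos hv]
        exact (e ⟨v, hv⟩).2
      · simp only [dif_neg hv]
      · simp only [dif_pos ha, dif_pos hb]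
        intro h
        have := e.injective (Fin.ext h)
        exact hab.ne (congrArg Subtype.val this)
  rw [h1, card_image_of_injective, card_univ, Fintype.card_embedding_eq, Fintype.card_fin,
    Fintype.card_coe]
  intro e e' h
  ext v
  have := congrFun h v
  simp only [dif_pos v.2] at this
  exact this

/-- Module GLUE: clique sums. -/
theorem glue : GlueS := by
  intro V _ _ G S1 S2 hS hK q
  classical
  rw [← card_clique hK, card_cols_sum (K := S1 ∩ S2) (T := S1 ∪ S2)
      (inter_subset_left.trans subset_union_left),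
    card_cols_sum (K := S1 ∩ S2) (T := S1) inter_subset_left,
    card_cols_sum (K := S1 ∩ S2) (T := S2) inter_subset_right]
  rcases (cols G (S1 ∩ S2) q).eq_empty_or_nonempty with he | ⟨g0, hg0⟩
  · rw [he]
    simp
  · have e1 : ∀ g ∈ cols G (S1 ∩ S2) q,
        (fib G S1 (S1 ∩ S2) q g).card = (fib G S1 (S1 ∩ S2) q g0).card := fun g hg =>
      le_antisymm (fib_le inter_subset_left hK hg hg0) (fib_le inter_subset_left hK hg0 hg)
    have e2 : ∀ g ∈ cols G (S1 ∩ S2) q,
        (fib G S2 (S1 ∩ S2) q g).card = (fib G S2 (S1 ∩ S2) q g0).card := fun g hg =>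
      le_antisymm (fib_le inter_subset_right hK hg hg0) (fib_le inter_subset_right hK hg0 hg)
    rw [sum_congr rfl e1, sum_congr rfl e2, sum_congr rfl fun g hg =>
      (fib_union hS).trans (congrArg₂ (· * ·) (e1 g hg) (e2 g hg))]
    rw [sum_const, sum_const, sum_const, smul_eq_mul, smul_eq_mul, smul_eq_mul]
    ring

end Pool.Agent.Xu.H57
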