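import Pool.Agent.Lib.MP_144d21_co.XU.Iface

set_option autoImplicit false

namespace Pool.Agent.Xu.H57

open Finset Polynomial Pool.Agent.Xu

variable {V : Type} [Fintype V] [DecidableEq V]

theorem mem_edg {G : SimpleGraph V} {S : Finset V} {a b : V} :
    s(a, b) ∈ edg G S ↔ G.Adj a b ∧ a ∈ S ∧ b ∈ S := by
  classical
  unfold edg
  rw [mem_filter, SimpleGraph.mem_edgeSet]
  constructor
  · rintro ⟨-, h1, h2⟩
    exact ⟨h1, h2 a (Sym2.mem_mk_left a b), h2 b (Sym2.mem_mk_right a b)⟩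
  · rintro ⟨h1, h2, h3⟩
    refine ⟨mem_univ _, h1, fun x hx => ?_⟩
    rcases Sym2.mem_iff.1 hx with rfl | rfl
    · exact h2
    · exact h3

omit [Fintype V] in
theorem card_star (v : V) (T : Finset V) : (T.image fun x => s(v, x)).card = T.card :=
  card_image_of_injective _ fun _ _ h => Sym2.congr_right.1 h

omit [Fintype V] in
theorem mem_star {v a b : V} {T : Finset V} :
    s(a, b) ∈ T.image (fun x => s(v, x)) ↔ (a = v ∧ b ∈ T) ∨ (b = v ∧ a ∈ T) := by
  rw [mem_image]
  constructor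
  · rintro ⟨x, hx, hxe⟩
    rw [Sym2.eq_iff] at hxe
    rcases hxe with ⟨rfl, rfl⟩ | ⟨rfl, rfl⟩
    · exact Or.inl ⟨rfl, hx⟩
    · exact Or.inr ⟨rfl, hx⟩
  · rintro (⟨rfl, hb⟩ | ⟨rfl, ha⟩)
    · exact ⟨b, hb, rfl⟩
    · exact ⟨a, ha, Sym2.eq_swap⟩

theorem ne_erase (G : SimpleGraph V) (S : Finset V) (v : V) (hv : v ∈ S) :
    ne G S = ne G (S.erase v) + (nb G S v).card := by
  classical
  unfold ne
  rw [← card_star v (nb G S v), ← card_union_of_disjoint]
  · congr 1
    ext e
    induction e using Sym2.ind with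
    | _ a b =>
      rw [mem_union, mem_edg, mem_edg, mem_star, mem_nb, mem_nb, mem_erase, mem_erase]
      constructor
      · rintro ⟨h1, h2, h3⟩
        by_cases ha : a = v
        · subst ha
          exact Or.inr (Or.inl ⟨rfl, h3, h1⟩)
        · by_cases hb : b = v
          · subst hb
            exact Or.inr (Or.inr ⟨rfl, h2, h1.symm⟩)
          · exact Or.inl ⟨h1, ⟨ha, h2⟩, hb, h3⟩
      · rintro (⟨h1, ⟨-, h2⟩, -, h3⟩ | ⟨rfl, h3, h1⟩ | ⟨rfl, h3, h1⟩)
        · exact ⟨h1, h2, h3⟩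
        · exact ⟨h1, hv, h3⟩
        · exact ⟨h1.symm, h3, hv⟩
  · rw [Finset.disjoint_left]
    intro e
    induction e using Sym2.ind with
    | _ a b =>
      rw [mem_edg, mem_star, mem_erase, mem_erase]
      rintro ⟨-, ⟨h2, -⟩, h3, -⟩ (⟨h4, -⟩ | ⟨h4, -⟩)
      · exact h2 h4
      · exact h3 h4

/-- Module NECNT: counting edges. -/
theorem necnt : NecntS := by
  intro V _ _ G S
  classical
  refine ⟨fun v hv w hw hvw => ⟨?_, ?_⟩, fun v hv => ne_erase G S v hv, ?_, ?_⟩
  · -- deletion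
    unfold ne
    have h1 : edg G S = insert s(v, w) (edg (del G v w) S) := by
      ext e
      induction e using Sym2.ind with
      | _ a b =>
        rw [mem_insert, mem_edg, mem_edg, Sym2.eq_iff]
        constructor
        · rintro ⟨h1, h2, h3⟩
          by_cases hc1 : a = v ∧ b = w
          · exact Or.inl (Or.inl hc1)
          by_cases hc2 : a = w ∧ b = v
          · exact Or.inl (Or.inr hc2)
          exact Or.inr ⟨⟨h1, hc1, hc2⟩, h2, h3⟩
        · rintro ((⟨rfl, rfl⟩ | ⟨rfl, rfl⟩) | ⟨h1, h2, h3⟩)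
          · exact ⟨hvw, hv, hw⟩
          · exact ⟨hvw.symm, hw, hv⟩
          · exact ⟨h1.1, h2, h3⟩
    rw [h1, card_insert_of_notMem]
    rw [mem_edg]
    exact fun h => h.1.2.1 ⟨rfl, rfl⟩
  · -- contraction
    have hne : v ≠ w := hvw.ne
    rw [ne_erase G S v hv]
    have hT : (((nb G S v).erase w) \ nb G S w).card + 1 + (nb G S v ∩ nb G S w).card =
        (nb G S v).card := by
      have h1 : (nb G S v).erase w ∩ nb G S w = nb G S v ∩ nb G S w := by
        ext x
        rw [mem_inter, mem_inter, mem_erase]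
        constructor
        · rintro ⟨⟨-, h1⟩, h2⟩
          exact ⟨h1, h2⟩
        · rintro ⟨h1, h2⟩
          exact ⟨⟨(mem_nb.1 h2).2.ne.symm, h1⟩, h2⟩
      have h2 := card_sdiff_add_card_inter ((nb G S v).erase w) (nb G S w)
      rw [h1] at h2
      have h3 : ((nb G S v).erase w).card + 1 = (nb G S v).card :=
        card_erase_add_one (mem_nb.2 ⟨hw, hvw⟩)
      omega
    have hc : ne (con G v w) (S.erase v) =
        ne G (S.erase v) + (((nb G S v).erase w) \ nb G S w).card := by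
      unfold ne
      rw [← card_star w (((nb G S v).erase w) \ nb G S w), ← card_union_of_disjoint]
      · congr 1
        ext e
        induction e using Sym2.ind with
        | _ a b =>
          rw [mem_union, mem_edg, mem_edg, mem_star, mem_sdiff, mem_sdiff, mem_nb, mem_nb,
            mem_erase, mem_erase, mem_erase, mem_erase, mem_nb, mem_nb]
          constructor
          · rintro ⟨⟨h1, h2⟩, ⟨h3, h4⟩, h5, h6⟩
            by_cases hab : G.Adj a b
            · exact Or.inl ⟨hab, ⟨h3, h4⟩, h5, h6⟩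
            · right
              rcases h2 with h2 | ⟨rfl, h2⟩ | ⟨rfl, h2⟩
              · exact absurd h2 hab
              · exact Or.inl ⟨rfl, ⟨h1.symm, h6, h2⟩, fun h => hab h.2⟩
              · exact Or.inr ⟨rfl, ⟨h1, h4, h2⟩, fun h => hab h.2.symm⟩
          · rintro (⟨h1, h2, h3⟩ | ⟨rfl, ⟨h1, h2, h3⟩, h4⟩ | ⟨rfl, ⟨h1, h2, h3⟩, h4⟩)
            · exact ⟨⟨h1.ne, Or.inl h1⟩, h2, h3⟩
            · exact ⟨⟨h1.symm, Or.inr (Or.inl ⟨rfl, h3⟩)⟩, ⟨hne.symm, hw⟩, h3.ne.symm, h2⟩
            · exact ⟨⟨h1, Or.inr (Or.inr ⟨rfl, h3⟩)⟩, ⟨h3.ne.symm, h2⟩, hne.symm, hw⟩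
      · rw [Finset.disjoint_left]
        intro e
        induction e using Sym2.ind with
        | _ a b =>
          rw [mem_edg, mem_star, mem_sdiff, mem_sdiff, mem_nb, mem_nb, mem_erase, mem_erase]
          rintro ⟨h1, ⟨h2, h3⟩, h4, h5⟩ (⟨rfl, -, h6⟩ | ⟨rfl, -, h6⟩)
          · exact h6 ⟨h5, h1⟩
          · exact h6 ⟨h3, h1.symm⟩
    rw [hc]
    omega
  · -- addition
    intro v hv w hw hne hvw
    unfold ne
    have h1 : edg (add G v w) S = insert s(v, w) (edg G S) := by
      ext e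
      induction e using Sym2.ind with
      | _ a b =>
        rw [mem_insert, mem_edg, mem_edg, Sym2.eq_iff]
        constructor
        · rintro ⟨h1 | ⟨-, h1⟩, h2, h3⟩
          · exact Or.inr ⟨h1, h2, h3⟩
          · exact Or.inl h1
        · rintro ((⟨rfl, rfl⟩ | ⟨rfl, rfl⟩) | ⟨h1, h2, h3⟩)
          · exact ⟨Or.inr ⟨hne, Or.inl ⟨rfl, rfl⟩⟩, hv, hw⟩
          · exact ⟨Or.inr ⟨hne.symm, Or.inr ⟨rfl, rfl⟩⟩, hw, hv⟩
          · exact ⟨Or.inl h1, h2, h3⟩
    rw [h1, card_insert_of_notMem]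
    rw [mem_edg]
    exact fun h => hvw h.1
  · -- two parts meeting in an edge
    intro S1 S2 x y hU hI hxy hS
    unfold ne
    have hx : x ∈ S1 ∧ x ∈ S2 := by
      rw [← mem_inter, hI]; exact mem_insert_self _ _
    have hy : y ∈ S1 ∧ y ∈ S2 := by
      rw [← mem_inter, hI]; exact mem_insert_of_mem (mem_singleton_self _)
    have h1 : edg G S = edg G S1 ∪ edg G S2 := by
      ext e
      induction e using Sym2.ind with
      | _ a b =>
        rw [mem_union, mem_edg, mem_edg, mem_edg, ← hU, mem_union, mem_union]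
        constructor
        · rintro ⟨h1, h2, h3⟩
          by_cases ha1 : a ∈ S1
          · by_cases hb1 : b ∈ S1
            · exact Or.inl ⟨h1, ha1, hb1⟩
            · have hb2 : b ∈ S2 := h3.resolve_left hb1
              by_cases ha2 : a ∈ S2
              · exact Or.inr ⟨h1, ha2, hb2⟩
              · exact absurd h1 (hS a ha1 ha2 b hb2 hb1)
          · have ha2 : a ∈ S2 := h2.resolve_left ha1
            by_cases hb2 : b ∈ S2
            · exact Or.inr ⟨h1, ha2, hb2⟩
            · exact absurd h1.symm (hS b (h3.resolve_right hb2) hb2 a ha2 ha1)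
        · rintro (⟨h1, h2, h3⟩ | ⟨h1, h2, h3⟩)
          · exact ⟨h1, Or.inl h2, Or.inl h3⟩
          · exact ⟨h1, Or.inr h2, Or.inr h3⟩
    have h2 : edg G S1 ∩ edg G S2 = {s(x, y)} := by
      ext e
      induction e using Sym2.ind with
      | _ a b =>
        rw [mem_inter, mem_edg, mem_edg, mem_singleton, Sym2.eq_iff]
        constructor
        · rintro ⟨⟨h1, h2, h3⟩, -, h4, h5⟩
          have ha : a ∈ S1 ∩ S2 := mem_inter.2 ⟨h2, h4⟩
          have hb : b ∈ S1 ∩ S2 := mem_inter.2 ⟨h3, h5⟩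
          rw [hI, mem_insert, mem_singleton] at ha hb
          rcases ha with rfl | rfl
          · rcases hb with rfl | rfl
            · exact absurd rfl h1.ne
            · exact Or.inl ⟨rfl, rfl⟩
          · rcases hb with rfl | rfl
            · exact Or.inr ⟨rfl, rfl⟩
            · exact absurd rfl h1.ne
        · rintro (⟨rfl, rfl⟩ | ⟨rfl, rfl⟩)
          · exact ⟨⟨hxy, hx.1, hy.1⟩, hxy, hx.2, hy.2⟩
          · exact ⟨⟨hxy.symm, hy.1, hx.1⟩, hxy.symm, hy.2, hx.2⟩
    have h3 := card_union_add_card_inter (edg G S1) (edg G S2)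
    rw [← h1, h2, card_singleton] at h3
    exact h3

end Pool.Agent.Xu.H57
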