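import Pool.Agent.Lib.MP_144d21_co.XU.Iface

set_option autoImplicit false

namespace Pool.Agent.Xu.H57

open Finset Polynomial Pool.Agent.Xu

/-- Module COLDC: deletion and contraction for colourings. -/
theorem coldc : ColdcS := by
  intro V _ _ G S v w hv hw hvw q
  classical
  have hne : v ≠ w := hvw.ne
  have hwS : w ∈ S.erase v := mem_erase.2 ⟨hne.symm, hw⟩
  rw [← card_filter_add_card_filter_not (s := cols (del G v w) S q) (fun c => c v ≠ c w)]
  congr 1
  · congr 1
    ext c
    rw [mem_filter, mem_cols, mem_cols]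
    constructor
    · rintro ⟨⟨h1, h2, h3⟩, h4⟩
      refine ⟨h1, h2, fun a ha b hb hab => ?_⟩
      by_cases hc1 : a = v ∧ b = w
      · rw [hc1.1, hc1.2]; exact h4
      by_cases hc2 : a = w ∧ b = v
      · rw [hc2.1, hc2.2]; exact h4.symm
      exact h3 a ha b hb ⟨hab, hc1, hc2⟩
    · rintro ⟨h1, h2, h3⟩
      exact ⟨⟨h1, h2, fun a ha b hb hab => h3 a ha b hb hab.1⟩, h3 v hv w hw hvw⟩
  · refine card_nbij' (fun c => Function.update c v 0) (fun d => Function.update d v (d w))
      ?_ ?_ ?_ ?_
    · intro c hc
      rw [mem_coe, mem_filter, mem_cols, not_not] at hc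
      obtain ⟨⟨h1, h2, h3⟩, h4⟩ := hc
      rw [mem_coe, mem_cols]
      refine ⟨fun u hu => ?_, fun u hu => ?_, fun a ha b hb hab => ?_⟩
      · obtain ⟨hu1, hu2⟩ := mem_erase.1 hu
        simp only [Function.update_of_ne hu1]
        exact h1 u hu2
      · by_cases huv : u = v
        · subst huv
          simp only [Function.update_self]
        · simp only [Function.update_of_ne huv]
          exact h2 u fun hu' => hu (mem_erase.2 ⟨huv, hu'⟩)
      · obtain ⟨ha1, ha2⟩ := mem_erase.1 ha
        obtain ⟨hb1, hb2⟩ := mem_erase.1 hb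
        simp only [Function.update_of_ne ha1, Function.update_of_ne hb1]
        obtain ⟨hab1, hab2 | ⟨rfl, hab2⟩ | ⟨rfl, hab2⟩⟩ := hab
        · exact h3 a ha2 b hb2 ⟨hab2, fun h => ha1 h.1, fun h => hb1 h.2⟩
        · rw [← h4]
          exact h3 v hv b hb2 ⟨hab2, fun h => hab1 h.2.symm, fun h => hne h.1⟩
        · rw [← h4]
          exact (h3 v hv a ha2 ⟨hab2, fun h => hab1 h.2, fun h => hne h.1⟩).symm
    · intro d hd
      rw [mem_coe, mem_cols] at hd
      obtain ⟨h1, h2, h3⟩ := hd
      rw [mem_coe, mem_filter, mem_cols, not_not]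
      refine ⟨⟨fun u hu => ?_, fun u hu => ?_, fun a ha b hb hab => ?_⟩, ?_⟩
      · by_cases huv : u = v
        · subst huv
          simp only [Function.update_self]
          exact h1 w hwS
        · simp only [Function.update_of_ne huv]
          exact h1 u (mem_erase.2 ⟨huv, hu⟩)
      · have huv : u ≠ v := fun h => hu (h ▸ hv)
        simp only [Function.update_of_ne huv]
        exact h2 u fun h => hu (mem_erase.1 h).2
      · obtain ⟨hab1, hab2, hab3⟩ := hab
        by_cases hav : a = v
        · subst hav
          have hba : b ≠ a := hab1.ne.symm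
          have hbw : w ≠ b := fun h => hab2 ⟨rfl, h.symm⟩
          simp only [Function.update_self, Function.update_of_ne hba]
          exact h3 w hwS b (mem_erase.2 ⟨hba, hb⟩) ⟨hbw, Or.inr (Or.inl ⟨rfl, hab1⟩)⟩
        · by_cases hbv : b = v
          · subst hbv
            have haw : a ≠ w := fun h => hab3 ⟨h, rfl⟩
            simp only [Function.update_self, Function.update_of_ne hav]
            exact h3 a (mem_erase.2 ⟨hav, ha⟩) w hwS ⟨haw, Or.inr (Or.inr ⟨rfl, hab1.symm⟩)⟩
          · simp only [Function.update_of_ne hav, Function.update_of_ne hbv]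
            exact h3 a (mem_erase.2 ⟨hav, ha⟩) b (mem_erase.2 ⟨hbv, hb⟩)
              ⟨hab1.ne, Or.inl hab1⟩
      · simp only [Function.update_self, Function.update_of_ne hne.symm]
    · intro c hc
      rw [mem_coe, mem_filter, not_not] at hc
      simp only [Function.update_idem, Function.update_of_ne hne.symm]
      rw [← hc.2, Function.update_eq_self]
    · intro d hd
      rw [mem_coe, mem_cols] at hd
      simp only [Function.update_idem]
      have h0 : d v = 0 := hd.2.1 v (notMem_erase v S)
      rw [← h0, Function.update_eq_self]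

end Pool.Agent.Xu.H57
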